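import Mathlib
import Pool.Agent.H19.LCAEnt

set_option autoImplicit false

namespace Pool.Agent.Results.MP_827700_an.UpperContinuous

open MeasureTheory Pool.Agent.H19.LCAEnt

universe u v

/-- The algebraic entropy is upper continuous on flows of LCA groups. -/
theorem result {G : Type u} [AddCommGroup G] [TopologicalSpace G] [IsTopologicalAddGroup G]
    [LocallyCompactSpace G] [T2Space G] [MeasurableSpace G] [BorelSpace G] (μ : Measure G)
    [μ.IsAddHaarMeasure] (φ : G →+ G) (hφ : Continuous φ) {ι : Type v} (K : ι → AddSubgroup G)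
    (hcl : ∀ i, IsClosed (K i : Set G)) (hinv : ∀ i, ∀ x ∈ K i, φ x ∈ K i)
    (hdir : Directed (· ≤ ·) K) (hU : ∀ x, ∃ i, x ∈ K i)
    (ν : ∀ i, Measure (K i)) [∀ i, (ν i).IsAddHaarMeasure] :
    hA μ φ = ⨆ i, hA (ν i) (res φ (K i) (hinv i)) := by
  refine le_antisymm (iSup₂_le fun C hC => ?_) (iSup_le fun i => res_le μ hφ _ (hcl i) _ _)
  obtain ⟨F, -, h1⟩ := fin_cover hφ hC.1 Set.univ fun x =>
    ⟨x, trivial, by simpa using mem_interior_iff_mem_nhds.mpr hC.2⟩
  classical
  choose j hj using hU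
  have : Nonempty ι := ⟨j 0⟩
  obtain ⟨i, hi⟩ := hdir.finset_le (F.image j)
  refine le_iSup_of_le i (le_res μ hφ _ (hcl i) _ _ hC.1 hC.2
    ((F.finite_toSet.preimage (K i).subtype_injective.injOn).insert 0) (Set.mem_insert ..)
    (h1.trans (Set.add_subset_add_right fun x hx => ?_)))
  exact ⟨⟨x, hi _ (Finset.mem_image_of_mem j hx) (hj x)⟩, Set.mem_insert_of_mem _ hx, rfl⟩

end Pool.Agent.Results.MP_827700_an.UpperContinuous
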